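import Pool.Agent.Q46.SL.Tools
import Pool.Agent.Q46.SL.Sub

/-!
# Almost prime Cunningham chains of the first kind of exact length in small subgroups

A Cunningham chain of the first kind is `x, 2 x + 1, 4 x + 3, ...`, that is `2 ^ i (x + 1) - 1`. We look for `x` which start chains of EXACT length `l` of
almost primes: the first `l` members have at most `R` prime factors, all larger than `p ^ κ`, and the next member `2 ^ l (x + 1) - 1` is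
composite.

Let `p` be a large prime and let `g` have multiplicative order `T` modulo `p`. In every box `[A1, A1 + N1) × [A2, A2 + N2)` with
`N1 N2 ≥ p ^ (9 / 8 + ε) T ^ (2 / 3)` there are many points of `y ≡ c g ^ x (mod p)` BOTH of whose coordinates start chains of exact
length `l`.

The theorem `main` has arbitrary forbidden residue classes; for `result` the residue of `x` modulo a prime `q₀ > 2 ^ (l + 1)` is fixed such
that `q₀` divides `2 ^ l (x + 1) - 1`.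

Design and proof: helper46 (modules `Pool.Agent.Q46.SV.*`, `Pool.Agent.Q46.SL.*`): the vectors of the residues in question are
equidistributed modulo all small integers with a power saving, by bounds for exponential sums; the fundamental lemma of the
sieve is applied to the vectors.
-/

set_option autoImplicit false

namespace Pool.Agent.Results.MP_77cbc6_nt.ExactChainsSmallSubgroups

open Finset Polynomial
open Pool.Agent.Q46.SL hiding Almost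

/-- `n` is not zero and has at most `R` prime factors (counted with multiplicity), all larger than `z` -/
def Almost (z : ℝ) (R : ℕ) (n : ℤ) : Prop :=
  n ≠ 0 ∧ n.natAbs.primeFactorsList.length ≤ R ∧ ∀ q : ℕ, q.Prime → (q : ℤ) ∣ n → z < q

/-- `x` is positive, all members of the chain of length `l` starting with `x` have at most `R` prime factors, all larger than `z`, and `x` avoids the classes `E q`, `q ≤ z` -/
def Good (l : ℕ) (z : ℝ) (R : ℕ) (E : ℕ → Finset ℕ) (x : ℤ) : Prop :=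
  0 < x ∧ (∀ i : Fin l, Almost z R (2 ^ (i : ℕ) * (x + 1) - 1)) ∧ ∀ q : ℕ, q.Prime → (q : ℝ) ≤ z → (x % q).toNat ∉ E q

/-- `E q` has at most `m` elements, and for some residue `a` outside `E q` no member of the chain of length `l` starting with `a` is divisible by `q` -/
def Adm (l m : ℕ) (E : ℕ → Finset ℕ) : Prop :=
  ∀ q : ℕ, q.Prime → (E q).card ≤ m ∧ ∃ a < q, a ∉ E q ∧ ∀ i : Fin l, ¬ (q : ℤ) ∣ 2 ^ (i : ℕ) * (a + 1) - 1

/-- the polynomials and the classes -/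
noncomputable def sysE (l m : ℕ) (E : ℕ → Finset ℕ) (hE : Adm l m E) : PE l m l where
  f := fun i => C (2 ^ (i : ℕ)) * X + C (2 ^ (i : ℕ) - 1)
  E := E
  deg := by
    have h1 : ∀ i : Fin l, (C (2 ^ (i : ℕ)) * X + C (2 ^ (i : ℕ) - 1) : ℤ[X]).natDegree ≤ 1 := fun i => by compute_degree
    refine (sum_le_sum fun i _ => h1 i).trans ?_
    simp
  adm := by
    intro q hq
    obtain ⟨h1, a, ha, haE, h2⟩ := hE q hq
    refine ⟨h1, a, ha, haE, fun i => ?_⟩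
    have e1 : (C (2 ^ (i : ℕ)) * X + C (2 ^ (i : ℕ) - 1) : ℤ[X]).eval (a : ℤ) = 2 ^ (i : ℕ) * (a + 1) - 1 := by
      simp only [eval_add, eval_mul, eval_C, eval_X]
      ring
    rw [e1]
    exact h2 i

lemma good_of {l m : ℕ} {E : ℕ → Finset ℕ} (hE : Adm l m E) {κ M : ℝ} (hM : (2 ^ (l + 1) : ℝ) ≤ M) {x : ℤ}
    (h : Near 1 (sysE l m E hE) κ M x) (hx : (x : ℝ) ≤ M) :
    Good l (M ^ κ) ⌊((1 : ℕ) + (l : ℕ) + 1 : ℝ) / κ⌋₊ E x := by
  obtain ⟨h0, h12⟩ := h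
  obtain ⟨h1, h2⟩ := h12 (by
    intro i
    rw [pow_one]
    refine cb_mono (cb_add (cb_CX (2 ^ (i : ℕ))) (cb_C (2 ^ (i : ℕ) - 1))) (le_trans ?_ hM)
    have h3 : (2 : ℝ) ^ (i : ℕ) ≤ 2 ^ l := pow_le_pow_right₀ (by norm_num) i.2.le
    have h4 : (1 : ℝ) ≤ 2 ^ (i : ℕ) := one_le_pow₀ (by norm_num)
    push_cast
    rw [abs_of_nonneg (by linarith : (0 : ℝ) ≤ 2 ^ (i : ℕ))]
    have h5 : |(2 : ℝ) ^ (i : ℕ) - 1| ≤ 2 ^ (i : ℕ) := by
      rw [abs_le]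
      constructor <;> linarith
    rw [pow_succ]
    linarith) hx
  refine ⟨h0, fun i => ?_, h2⟩
  have h3 := h1 i
  have e1 : ((sysE l m E hE).f i).eval x = 2 ^ (i : ℕ) * (x + 1) - 1 := by
    show (C (2 ^ (i : ℕ)) * X + C (2 ^ (i : ℕ) - 1) : ℤ[X]).eval x = _
    simp only [eval_add, eval_mul, eval_C, eval_X]
    ring
  rw [e1] at h3
  exact h3

theorem main (l m : ℕ) (ε : ℝ) (hε : 0 < ε) (hε1 : ε ≤ 1) :
    ∃ κ : ℝ, 0 < κ ∧ ∃ cc : ℝ, 0 < cc ∧ ∃ R p₀ : ℕ, ∀ p : ℕ, p₀ ≤ p → p.Prime → ∀ E : ℕ → Finset ℕ, Adm l m E → ∀ g c : ℤ, ¬ (p : ℤ) ∣ g → ¬ (p : ℤ) ∣ c →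
      ∀ A1 N1 A2 N2 : ℕ, A1 + N1 ≤ orderOf (g : ZMod p) → A2 + N2 ≤ p →
      (p : ℝ) ^ (9 / 8 + ε) * (orderOf (g : ZMod p) : ℝ) ^ (2 / 3 : ℝ) ≤ (N1 : ℝ) * N2 →
      ∃ G : Finset (ℕ × ℕ), cc * ((N1 : ℝ) * N2 / p) / Real.log p ^ (2 * (m + l)) ≤ G.card ∧
        ∀ z ∈ G, (A1 ≤ z.1 ∧ z.1 < A1 + N1) ∧ (A2 ≤ z.2 ∧ z.2 < A2 + N2) ∧ (p : ℤ) ∣ z.2 - c * g ^ z.1 ∧
          Good l ((p : ℝ) ^ κ) R E z.1 ∧ Good l ((p : ℝ) ^ κ) R E z.2 := by
  obtain ⟨κ, hκ, cc, hcc, p₀, h⟩ := Pool.Agent.Q46.SL.small_subgroups (Near 1 : PE l m l → ℝ → ℝ → ℤ → Prop)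
    (lg (m + l)) (fun r _ => csN l m l 1 r) ε hε hε1
  refine ⟨κ, hκ, cc, hcc, ⌊((1 : ℕ) + (l : ℕ) + 1 : ℝ) / κ⌋₊, max (2 ^ (l + 1)) p₀, ?_⟩
  intro p hp hpp E hE g c hg hc A1 N1 A2 N2 hA1 hA2 hN
  have hpr : (2 ^ (l + 1) : ℝ) ≤ p := by exact_mod_cast (le_max_left _ _).trans hp
  have hord := ord_le hpp g hg
  obtain ⟨G, hG, hG2⟩ := h p ((le_max_right _ _).trans hp) (sysE l m E hE) hpp g c hg hc A1 N1 A2 N2 hA1 hA2 hN
  refine ⟨G, le_trans (cnt le_rfl (by positivity) (log0 p) _ _) hG, ?_⟩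
  intro z hz
  obtain ⟨a1, a2, a3, a4, a5⟩ := hG2 z hz
  exact ⟨a1, a2, a3, good_of hE hpr a4 (by exact_mod_cast (by omega : z.1 ≤ p)), good_of hE hpr a5 (by exact_mod_cast (by omega : z.2 ≤ p))⟩

/-- `x` starts a chain of exact length `l` of almost primes: its members `c_i(x)`, `i < l`, have at most `R` prime factors, all larger
than `z`, and the next number `c_l(x)` is composite -/
def Exact (l : ℕ) (z : ℝ) (R : ℕ) (x : ℤ) : Prop :=
  0 < x ∧ (∀ i : Fin l, Almost z R (2 ^ (i : ℕ) * (x + 1) - 1)) ∧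
    ∃ q : ℕ, q.Prime ∧ (q : ℤ) ∣ 2 ^ l * (x + 1) - 1 ∧ (q : ℤ) < 2 ^ l * (x + 1) - 1

open Classical in
/-- the classes: all classes but one modulo `q₀`, nothing modulo the other primes -/
noncomputable def EE (q₀ a₀ : ℕ) (q : ℕ) : Finset ℕ := if q = q₀ then (range q₀).erase a₀ else ∅

lemma exists_q (l : ℕ) : ∃ q₀ a₀ : ℕ, q₀.Prime ∧ 2 ^ (l + 1) < q₀ ∧ a₀ < q₀ ∧ (q₀ : ℤ) ∣ 2 ^ l * ((a₀ : ℤ) + 1) - 1 ∧ Adm l q₀ (EE q₀ a₀) := by
  classical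
  obtain ⟨q₀, hq, hq₀⟩ := Nat.exists_infinite_primes (2 ^ (l + 1) + 1)
  have : Fact q₀.Prime := ⟨hq₀⟩
  have h2 : (2 : ZMod q₀) ≠ 0 := by
    intro h
    have h3 : ((2 : ℕ) : ZMod q₀) = 0 := by exact_mod_cast h
    rw [ZMod.natCast_eq_zero_iff] at h3
    have h4 := Nat.le_of_dvd (by norm_num) h3
    have h5 : 2 ≤ 2 ^ (l + 1) := by
      calc 2 = 2 ^ 1 := by norm_num
        _ ≤ 2 ^ (l + 1) := Nat.pow_le_pow_right (by norm_num) (by omega)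
    omega
  obtain ⟨u, hu⟩ : ∃ u : ZMod q₀, (2 : ZMod q₀) ^ l * u = 1 := ⟨((2 : ZMod q₀) ^ l)⁻¹, mul_inv_cancel₀ (pow_ne_zero _ h2)⟩
  obtain ⟨a₀, ha₀⟩ : ∃ a₀ : ℕ, a₀ = (u - 1 : ZMod q₀).val := ⟨_, rfl⟩
  have hcast : ((a₀ : ℕ) : ZMod q₀) = u - 1 := by rw [ha₀, ZMod.natCast_zmod_val]
  refine ⟨q₀, a₀, hq₀, by omega, by rw [ha₀]; exact ZMod.val_lt _, ?_, ?_⟩
  · rw [← ZMod.intCast_zmod_eq_zero_iff_dvd]
    push_cast
    rw [hcast]
    linear_combination hu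
  · intro q hqp
    by_cases hqq : q = q₀
    · subst hqq
      unfold EE
      rw [if_pos rfl]
      refine ⟨(card_erase_le.trans (by simp)), a₀, by rw [ha₀]; exact ZMod.val_lt _, by simp, ?_⟩
      intro i hd
      rw [← ZMod.intCast_zmod_eq_zero_iff_dvd] at hd
      push_cast at hd
      rw [hcast] at hd
      have e1 : (2 : ZMod q) ^ l = (2 : ZMod q) ^ (l - (i : ℕ)) * 2 ^ (i : ℕ) := by
        rw [← pow_add]
        congr 1
        have := i.2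
        omega
      have h3 : (2 : ZMod q) ^ (l - (i : ℕ)) = 1 := by
        have h5 : (2 : ZMod q) ^ (i : ℕ) * u = 1 := by linear_combination hd
        linear_combination (-(2 : ZMod q) ^ (l - (i : ℕ))) * h5 + hu - u * e1
      have h4 : ((2 ^ (l - (i : ℕ)) - 1 : ℕ) : ZMod q) = 0 := by
        rw [Nat.cast_sub Nat.one_le_two_pow]
        push_cast
        rw [h3, sub_self]
      rw [ZMod.natCast_eq_zero_iff] at h4
      have h5 : 2 ≤ 2 ^ (l - (i : ℕ)) := by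
        calc 2 = 2 ^ 1 := by norm_num
          _ ≤ 2 ^ (l - (i : ℕ)) := Nat.pow_le_pow_right (by norm_num) (by have := i.2; omega)
      have h6 : 2 ^ (l - (i : ℕ)) ≤ 2 ^ (l + 1) := Nat.pow_le_pow_right (by norm_num) (by omega)
      have h7 := Nat.le_of_dvd (by omega) h4
      omega
    · unfold EE
      rw [if_neg hqq]
      refine ⟨by simp, q - 1, by have := hqp.two_le; omega, by simp, ?_⟩
      intro i hd
      have h3 : (q : ℤ) ∣ 1 := by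
        have e2 : (2 ^ (i : ℕ) * (((q - 1 : ℕ) : ℤ) + 1) - 1 : ℤ) = 2 ^ (i : ℕ) * q - 1 := by
          have := hqp.two_le
          push_cast [Nat.cast_sub (by omega : 1 ≤ q)]
          ring
        rw [e2] at hd
        have := dvd_sub (Dvd.intro_left (2 ^ (i : ℕ)) rfl : (q : ℤ) ∣ 2 ^ (i : ℕ) * q) hd
        simpa using this
      have h4 := Int.le_of_dvd one_pos h3
      have := hqp.two_le
      omega

lemma exact_of {l R : ℕ} {z : ℝ} {q₀ a₀ : ℕ} (hl : 1 ≤ l) (hq₀ : q₀.Prime) (hq : 2 ^ (l + 1) < q₀)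
    (hd : (q₀ : ℤ) ∣ 2 ^ l * ((a₀ : ℤ) + 1) - 1) (hz : (q₀ : ℝ) ≤ z) {x : ℤ} (h : Good l z R (EE q₀ a₀) x) : Exact l z R x := by
  classical
  obtain ⟨h0, h1, h2⟩ := h
  have h3 := h2 q₀ hq₀ hz
  unfold EE at h3
  rw [if_pos rfl, mem_erase, not_and'] at h3
  have hq0 : (0 : ℤ) < q₀ := by exact_mod_cast hq₀.pos
  have h4 : (x % q₀).toNat < q₀ := by
    have := Int.emod_lt_of_pos x hq0
    have := Int.emod_nonneg x hq0.ne'
    omega
  have h5 : (x % q₀).toNat = a₀ := not_not.1 (h3 (mem_range.2 h4))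
  have h6 : x % q₀ = a₀ := by
    have := Int.emod_nonneg x hq0.ne'
    omega
  have h7 : (q₀ : ℤ) ∣ x - a₀ := by
    rw [← h6]
    exact Int.dvd_self_sub_emod
  have h8 : (q₀ : ℤ) ∣ 2 ^ l * (x + 1) - 1 := by
    have e1 : 2 ^ l * (x + 1) - 1 = 2 ^ l * (x - a₀) + (2 ^ l * ((a₀ : ℤ) + 1) - 1) := by ring
    rw [e1]
    exact dvd_add (dvd_mul_of_dvd_right h7 _) hd
  have hx2 : 2 ≤ x := by
    by_contra hx
    have hx1 : x = 1 := by omega
    rw [hx1] at h8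
    have h10 := Int.le_of_dvd (by
      have : (1 : ℤ) ≤ 2 ^ l := one_le_pow₀ (by norm_num)
      linarith) h8
    have h11 : (2 : ℤ) ^ (l + 1) < q₀ := by exact_mod_cast hq
    rw [pow_succ] at h11
    linarith
  have h9 := h1 ⟨0, hl⟩
  have e9 : (2 ^ ((⟨0, hl⟩ : Fin l) : ℕ) * (x + 1) - 1 : ℤ) = x := by norm_num
  rw [e9] at h9
  obtain ⟨r, hr, hrx⟩ := Nat.exists_prime_and_dvd (show x.natAbs ≠ 1 by omega)
  have hrx' : (r : ℤ) ∣ x := Int.natCast_dvd.2 hrx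
  have h10 := h9.2.2 r hr hrx'
  have h11 : (r : ℤ) ≤ x := Int.le_of_dvd h0 hrx'
  have h12 : (q₀ : ℤ) < x := by
    have : (q₀ : ℝ) < (r : ℝ) := by linarith
    have : q₀ < r := by exact_mod_cast this
    omega
  refine ⟨h0, h1, q₀, hq₀, h8, ?_⟩
  have h13 : (1 : ℤ) ≤ 2 ^ l := one_le_pow₀ (by norm_num)
  nlinarith

/-- Almost prime Cunningham chains of the first kind of exact length `l` start at both coordinates of many points of `y = c g ^ x`. -/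
theorem result (l : ℕ) (hl : 1 ≤ l) (ε : ℝ) (hε : 0 < ε) (hε1 : ε ≤ 1) :
    ∃ κ : ℝ, 0 < κ ∧ ∃ cc : ℝ, 0 < cc ∧ ∃ R K p₀ : ℕ, ∀ p : ℕ, p₀ ≤ p → p.Prime → ∀ g c : ℤ, ¬ (p : ℤ) ∣ g → ¬ (p : ℤ) ∣ c →
      ∀ A1 N1 A2 N2 : ℕ, A1 + N1 ≤ orderOf (g : ZMod p) → A2 + N2 ≤ p →
      (p : ℝ) ^ (9 / 8 + ε) * (orderOf (g : ZMod p) : ℝ) ^ (2 / 3 : ℝ) ≤ (N1 : ℝ) * N2 →
      ∃ G : Finset (ℕ × ℕ), cc * ((N1 : ℝ) * N2 / p) / Real.log p ^ K ≤ G.card ∧
        ∀ z ∈ G, (A1 ≤ z.1 ∧ z.1 < A1 + N1) ∧ (A2 ≤ z.2 ∧ z.2 < A2 + N2) ∧ (p : ℤ) ∣ z.2 - c * g ^ z.1 ∧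
          Exact l ((p : ℝ) ^ κ) R z.1 ∧ Exact l ((p : ℝ) ^ κ) R z.2 := by
  obtain ⟨q₀, a₀, hq₀, hq, -, hd, hE⟩ := exists_q l
  obtain ⟨κ, hκ, cc, hcc, R, p₀, h⟩ := main l q₀ ε hε hε1
  obtain ⟨p₁, hp₁⟩ := ((tendsto_natCast_atTop_atTop (R := ℝ)).eventually
    ((tendsto_rpow_atTop hκ).eventually_ge_atTop (q₀ : ℝ))).exists_forall_of_atTop
  refine ⟨κ, hκ, cc, hcc, R, 2 * (q₀ + l), max p₀ p₁, ?_⟩
  intro p hp hpp g c hg hc A1 N1 A2 N2 hA1 hA2 hN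
  obtain ⟨G, hG, hG2⟩ := h p ((le_max_left _ _).trans hp) hpp _ hE g c hg hc A1 N1 A2 N2 hA1 hA2 hN
  have hz := hp₁ p ((le_max_right _ _).trans hp)
  refine ⟨G, hG, fun z hz' => ?_⟩
  obtain ⟨a1, a2, a3, a4, a5⟩ := hG2 z hz'
  exact ⟨a1, a2, a3, exact_of hl hq₀ hq hd hz a4, exact_of hl hq₀ hq hd hz a5⟩

end Pool.Agent.Results.MP_77cbc6_nt.ExactChainsSmallSubgroups
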