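import Pool.Agent.Y816.PD.Chain

/-!
# Almost prime Cunningham chains of the first kind of exact length `k` with restricted digits

Let `g ≥ 2` be a base and `K` a large number of digits. For every `i < K` let `A i` be an arbitrary non-empty set of digits. Nothing
is assumed about these sets except that they are not too small on average: the number `|A 0| ⋯ |A (K - 1)|` of the integers
`n < g ^ K` whose `i`-th digit belongs to `A i` for all `i < K` is at least `exp (- c₀ K) g ^ K`, where `c₀ > 0` depends only on the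
length `k`. (For example, a digit is missing everywhere and the base is large; or the digits at an arbitrary set of at most `c' K`
places are prescribed; these sets may have `g ^ (θ K)` elements with `θ < 1`.)

The numbers `n < g ^ K` with digits in the sets `A i` which start a chain `c_0(n) = n, c_1(n) = 2 n + 1, c_2(n) = 4 n + 3, ...` of EXACT
length `k` in the following sense are counted up to a constant factor: the terms `c_0(n), ..., c_(k-1)(n)` have at most `r` prime
factors, all greater than `n ^ (1 / r)`, and `c_k(n)` is composite. Their number is at least `κ |A 0| ⋯ |A (K - 1)| / K ^ k`, the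
expected order, unless there is an obvious obstruction: no digit `d` in `A 0` such that for `n ≡ d` modulo `g` the terms
`c_j(n)`, `j < k`, are prime to `g`. The number of the primes with these digits which start a chain of primes of length at least `k`
is at most `C |A 0| ⋯ |A (K - 1)| / K ^ k`. The constants do not depend on the sets `A i`.

Proof. The theorem `Pool.Agent.Y816.PD.exact_chain` of the starting library: a sieve for the integers with restricted digits. The
lower bound for almost primes with `k` terms is larger, by a power of `K`, than the upper bound for those with `k + 1` terms.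
-/

set_option autoImplicit false

namespace Pool.Agent.Results.MP_77cbc6_nt.RestrictedDigits

open Filter Finset

/-- `c j n = 2 ^ j (n + 1) - 1`, the chain of the first kind which starts with `n`. -/
def c (j n : ℕ) : ℕ := 2 ^ j * (n + 1) - 1

/-- The `i`-th digit of `n` in base `g` (counted from the right, beginning with `0`) belongs to `A i` for all `i < K`. -/
def HasDigits (g K : ℕ) (A : ℕ → Finset ℕ) (n : ℕ) : Prop := ∀ i < K, n / g ^ i % g ∈ A i

/-- The number of the choices of `K` digits in the sets `A i`. -/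
def choices (K : ℕ) (A : ℕ → Finset ℕ) : ℕ := ∏ i ∈ range K, (A i).card

/-- `m` has at most `r` prime factors (counted with multiplicity), and all of them are larger than `y ^ (1 / r)`. -/
def AlmostPrime (y r m : ℕ) : Prop :=
  (∀ p : ℕ, p.Prime → p ∣ m → y < p ^ r) ∧ m.primeFactorsList.length ≤ r

open Classical in
/-- The number of the `n < g ^ K` with the digits `A i` which have the property `P`. -/
noncomputable def count (g K : ℕ) (A : ℕ → Finset ℕ) (P : ℕ → Prop) : ℕ :=
  ((range (g ^ K)).filter fun n => HasDigits g K A n ∧ P n).card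

lemma ND_le_count {g K : ℕ} {A : ℕ → Finset ℕ} {S : Set ℕ} {P : ℕ → Prop} (h : ∀ n < g ^ K, n ∈ S → P n) :
    Pool.Agent.Y816.PD.ND g K A S ≤ count g K A P := by
  classical
  unfold Pool.Agent.Y816.PD.ND count
  apply card_le_card
  intro n hn
  have h1 := mem_filter.1 hn
  exact mem_filter.2 ⟨h1.1, h1.2.1, h n (mem_range.1 h1.1) h1.2.2⟩

lemma count_le_ND {g K : ℕ} {A : ℕ → Finset ℕ} {S : Set ℕ} {P : ℕ → Prop} (h : ∀ n < g ^ K, P n → n ∈ S) :
    count g K A P ≤ Pool.Agent.Y816.PD.ND g K A S := by
  classical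
  unfold Pool.Agent.Y816.PD.ND count
  apply card_le_card
  intro n hn
  have h1 := mem_filter.1 hn
  exact mem_filter.2 ⟨h1.1, h1.2.1, h n (mem_range.1 h1.1) h1.2.2⟩

open Pool.Agent.Y816.PD in
lemma choices_eq (K : ℕ) (A : ℕ → Finset ℕ) : (choices K A : ℝ) = NA K A := by
  unfold choices NA
  push_cast
  rfl

lemma rpow_lt_iff {m p r : ℕ} (hr : r ≠ 0) : (m : ℝ) ^ (1 / (r : ℝ)) < p ↔ m < p ^ r := by
  have h1 : (((m : ℝ) ^ (1 / (r : ℝ))) ^ r) = m := by
    rw [one_div, Real.rpow_inv_natCast_pow (Nat.cast_nonneg m) hr]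
  rw [← pow_lt_pow_iff_left₀ (Real.rpow_nonneg (Nat.cast_nonneg m) _) (Nat.cast_nonneg p) hr, h1]
  exact_mod_cast Iff.rfl

lemma le_c (j n : ℕ) (hn : 1 ≤ n) : n ≤ c j n := by
  unfold c
  have h1 : 1 * (n + 1) ≤ 2 ^ j * (n + 1) := Nat.mul_le_mul_right _ Nat.one_le_two_pow
  omega

/-- **Almost prime chains of the first kind of exact length with restricted digits.** -/
theorem result (k : ℕ) (hk : 1 ≤ k) :
    ∃ c₀ : ℝ, 0 < c₀ ∧ ∃ r₀ : ℕ, 2 ≤ r₀ ∧ ∀ r : ℕ, r₀ ≤ r → ∀ g : ℕ, 2 ≤ g → ∃ κ C : ℝ, 0 < κ ∧ 0 < C ∧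
      ∀ᶠ K : ℕ in atTop, ∀ A : ℕ → Finset ℕ, (∀ i < K, A i ⊆ range g) →
        (g : ℝ) ^ K ≤ Real.exp (c₀ * K) * choices K A →
          ((∃ d ∈ A 0, ∀ j < k, (c j (d + g)).Coprime g) →
            κ * choices K A / (K : ℝ) ^ k ≤
              count g K A fun n => (∀ j < k, AlmostPrime n r (c j n)) ∧ 1 < c k n ∧ ¬ (c k n).Prime) ∧
          (count g K A (fun n => ∀ j < k, (c j n).Prime) : ℝ) ≤ C * choices K A / (K : ℝ) ^ k := by
  classical
  obtain ⟨c₀, hc₀, r0, hr0, h⟩ := Pool.Agent.Y816.PD.exact_chain c (Or.inl fun _ _ => rfl) k hk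
  refine ⟨c₀, hc₀, r0, hr0, fun r hr g hg => ?_⟩
  obtain ⟨κ, C, hκ, hC, h1⟩ := h r hr g hg
  refine ⟨κ, C, hκ, hC, ?_⟩
  have hr1 : r ≠ 0 := by omega
  filter_upwards [h1] with K hK
  intro A hA hprod
  obtain ⟨hlow, hup⟩ := hK A hA (by rw [← choices_eq]; exact hprod)
  rw [← choices_eq] at hlow hup
  constructor
  · intro hd
    refine (hlow hd).trans (Nat.cast_le.2 ?_)
    refine ND_le_count fun n hn1 hn => ?_
    obtain ⟨⟨hn3, hn4⟩, hn5, hn6⟩ := hn
    exact ⟨fun j hj => ⟨fun p hp hpd => (rpow_lt_iff hr1).1 (hn3 j hj p hp hpd), hn4 j hj⟩, hn5, hn6⟩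
  · refine le_trans (Nat.cast_le.2 ?_) hup
    refine count_le_ND fun n hn1 hn3 => ?_
    intro j hj p hp hpd
    refine (rpow_lt_iff hr1).2 ?_
    have h5 : n ≤ p := by
      rcases Nat.eq_zero_or_pos n with h6 | h6
      · omega
      · rw [(Nat.prime_dvd_prime_iff_eq hp (hn3 j hj)).1 hpd]
        exact le_c j n h6
    exact lt_of_le_of_lt h5 (lt_self_pow₀ hp.one_lt (by omega))

end Pool.Agent.Results.MP_77cbc6_nt.RestrictedDigits
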